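import Pool.Agent.Helper81.PP.SlopeM

/-!
Project PP (helper9): package SEC.
-/

set_option autoImplicit false
set_option linter.unusedSectionVars false

namespace Pool.Agent.Helper81.PP

open FF Module MvPolynomial Pool.Agent.Helper9.FJ Pool.Agent.Helper9.PP

section

variable {K : Type} [Field K] [Algebra ℂ K] {l : ℕ} {R : Fin l → ℕ}

/-- the derivative in the direction of a vector of the group `j` -/
noncomputable def DD (j : Fin l) :
    (Fin (R j) → K) →ₗ[K] Module.End K (MvPolynomial (Vr R) K) :=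
  Fintype.linearCombination K (fun i : Fin (R j) => (pderiv (⟨j, i⟩ : Vr R)).toLinearMap)

theorem DD_apply (j : Fin l) (x : Fin (R j) → K) (f : MvPolynomial (Vr R) K) :
    DD j x f = ∑ i, x i • pderiv (⟨j, i⟩ : Vr R) f := by
  rw [DD, Fintype.linearCombination_apply, LinearMap.sum_apply]
  rfl

/-- the iterated derivative -/
noncomputable def PD {N : ℕ} (t : Fin N → Fin l) (v : ∀ s, Fin (R (t s)) → K) :
    Module.End K (MvPolynomial (Vr R) K) := (List.ofFn (fun s => DD (t s) (v s))).prod

theorem PD_succ {N : ℕ} (t : Fin (N + 1) → Fin l) (v : ∀ s, Fin (R (t s)) → K)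
    (f : MvPolynomial (Vr R) K) :
    PD t v f = DD (t 0) (v 0) (PD (fun s => t s.succ) (fun s => v s.succ) f) := by
  rw [PD, List.ofFn_succ, List.prod_cons]
  rfl

theorem PD_zero (t : Fin 0 → Fin l) (v : ∀ s, Fin (R (t s)) → K) (f : MvPolynomial (Vr R) K) :
    PD t v f = f := by
  rw [PD, List.ofFn_zero, List.prod_nil]
  rfl

theorem psM_C {r : Fin l → ℕ} (h : ∀ j, Matrix (Fin (r j)) (Fin (R j)) K) (c : K) :
    psM h (C c) = C c := by
  unfold psM
  rw [aeval_C]
  rfl

theorem psM_X {r : Fin l → ℕ} (h : ∀ j, Matrix (Fin (r j)) (Fin (R j)) K) (x : Vr r) :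
    psM h (X x) = ∑ i, C (h x.1 x.2 i) * X ⟨x.1, i⟩ := aeval_X _ _

theorem psM_psM {r q : Fin l → ℕ} (h : ∀ j, Matrix (Fin (r j)) (Fin (R j)) K)
    (h' : ∀ j, Matrix (Fin (R j)) (Fin (q j)) K) (f : MvPolynomial (Vr r) K) :
    psM h' (psM h f) = psM (fun j => h j * h' j) f := by
  have : (psM h').comp (psM h) = psM (fun j => h j * h' j) := by
    apply MvPolynomial.algHom_ext
    intro x
    rw [AlgHom.comp_apply, psM_X, psM_X, map_sum]
    simp only [map_mul, psM_C, psM_X, Matrix.mul_apply, map_sum, Finset.sum_mul, Finset.mul_sum]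
    rw [Finset.sum_comm]
    refine Finset.sum_congr rfl fun l _ => Finset.sum_congr rfl fun i _ => ?_
    ring
  exact AlgHom.congr_fun this f

theorem psM_one (f : MvPolynomial (Vr R) K) :
    psM (fun j => (1 : Matrix (Fin (R j)) (Fin (R j)) K)) f = f := by
  have : psM (fun j => (1 : Matrix (Fin (R j)) (Fin (R j)) K)) = AlgHom.id K _ := by
    apply MvPolynomial.algHom_ext
    intro x
    rw [psM_X, AlgHom.id_apply]
    simp [Matrix.one_apply]
  rw [this]; rfl

theorem coeff0_psM {r : Fin l → ℕ} (h : ∀ j, Matrix (Fin (r j)) (Fin (R j)) K)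
    (f : MvPolynomial (Vr r) K) : coeff 0 (psM h f) = coeff 0 f := by
  rw [← constantCoeff_eq, ← constantCoeff_eq]
  have : (constantCoeff (R := K) (σ := Vr R)).comp (psM h).toRingHom = constantCoeff := by
    apply MvPolynomial.ringHom_ext
    · intro c
      change constantCoeff (psM h (C c)) = _
      rw [psM_C, constantCoeff_C, constantCoeff_C]
    · intro x
      change constantCoeff (psM h (X x)) = _
      rw [psM_X, constantCoeff_X, map_sum]
      simp
  exact RingHom.congr_fun this f

theorem DD_psM (h : ∀ j, Matrix (Fin (R j)) (Fin (R j)) K) (j : Fin l) (x : Fin (R j) → K)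
    (f : MvPolynomial (Vr R) K) : DD j x (psM h f) = psM h (DD j ((h j).mulVec x) f) := by
  classical
  induction f using MvPolynomial.induction_on with
  | C c =>
    rw [psM_C, DD_apply, DD_apply]
    simp
  | add p q hp hq =>
    rw [map_add, map_add, hp, hq, map_add, map_add]
  | mul_X p y hp =>
    rw [DD_apply] at hp
    rw [DD_apply] at hp
    rw [map_mul, DD_apply, DD_apply]
    simp only [Derivation.leibniz, smul_add, Finset.sum_add_distrib, map_add, smul_eq_mul,
      map_sum, map_smul, map_mul]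
    have h1 : ∑ i, x i • (psM h p * pderiv (⟨j, i⟩ : Vr R) (psM h (X y))) =
        ∑ i, (h j).mulVec x i • (psM h p * psM h (pderiv (⟨j, i⟩ : Vr R) (X y))) := by
      simp only [psM_X, map_sum, Derivation.leibniz, pderiv_C, pderiv_X, smul_eq_mul, mul_zero,
        add_zero]
      by_cases hj : y.1 = j
      · obtain ⟨y1, y2⟩ := y
        subst hj
        have h3 : ∀ (i i' : Fin (R y1)), (Pi.single (⟨y1, i'⟩ : Vr R) (1 : MvPolynomial (Vr R) K) :
            Vr R → MvPolynomial (Vr R) K) ⟨y1, i⟩ = if i = i' then 1 else 0 := by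
          intro i i'
          rw [Pi.single_apply]
          refine if_congr ?_ rfl rfl
          simp
        simp only [h3, mul_ite, mul_one, mul_zero, Finset.sum_ite_eq, Finset.mem_univ, if_true,
          apply_ite (psM h), map_one, map_zero, smul_ite, smul_zero, Finset.sum_ite_eq']
        rw [Matrix.mulVec, dotProduct, Finset.sum_smul]
        refine Finset.sum_congr rfl fun i _ => ?_
        rw [smul_eq_C_mul, smul_eq_C_mul, C_mul]
        ring
      · have h3 : ∀ (i : Fin (R j)) (i' : Fin (R y.1)), (Pi.single (⟨j, i⟩ : Vr R)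
            (1 : MvPolynomial (Vr R) K) : Vr R → MvPolynomial (Vr R) K) ⟨y.1, i'⟩ = 0 := by
          intro i i'
          rw [Pi.single_apply, if_neg]
          intro h4
          exact hj (congrArg Sigma.fst h4)
        have h4 : ∀ (i : Fin (R j)), (Pi.single (⟨j, i⟩ : Vr R)
            (1 : MvPolynomial (Vr R) K) : Vr R → MvPolynomial (Vr R) K) y = 0 := by
          intro i
          rw [Pi.single_apply, if_neg]
          intro h4
          exact hj (congrArg Sigma.fst h4)
        rw [Finset.sum_eq_zero, Finset.sum_eq_zero]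
        · intro i _
          rw [h4, map_zero, mul_zero, smul_zero]
        · intro i _
          rw [Finset.sum_eq_zero, mul_zero, smul_zero]
          intro i' _
          exact (congrArg _ (h3 i i')).trans (mul_zero _)
    have h2 : ∑ i, x i • (psM h (X y) * pderiv (⟨j, i⟩ : Vr R) (psM h p)) =
        ∑ i, (h j).mulVec x i • (psM h (X y) * psM h (pderiv (⟨j, i⟩ : Vr R) p)) := by
      simp only [← mul_smul_comm, ← Finset.mul_sum]
      rw [hp, map_sum]
      simp only [map_smul]
    rw [h1, h2]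

theorem PD_psM (h : ∀ j, Matrix (Fin (R j)) (Fin (R j)) K) {N : ℕ} (t : Fin N → Fin l)
    (v : ∀ s, Fin (R (t s)) → K) (f : MvPolynomial (Vr R) K) :
    PD t v (psM h f) = psM h (PD t (fun s => (h (t s)).mulVec (v s)) f) := by
  induction N with
  | zero => rw [PD_zero, PD_zero]
  | succ N ih => rw [PD_succ, PD_succ, ih, DD_psM]

theorem ge_DD {P : Place ℂ K} {c e : ℤ} (j : Fin l) (x : Fin (R j) → K)
    (hx : ∀ i, Ge P e (x i)) (f : MvPolynomial (Vr R) K) (hf : ∀ α, Ge P c (coeff α f))
    (α : Vr R →₀ ℕ) : Ge P (c + e) (coeff α (DD j x f)) := by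
  rw [DD_apply, coeff_sum]
  refine Ge.sum _ fun i _ => ?_
  rw [coeff_smul, smul_eq_mul, coeff_pderiv]
  have h1 := (hf (α + Finsupp.single ⟨j, i⟩ 1)).mul ((hx i).mul
    (ge_int (P := P) ((α ⟨j, i⟩ : ℤ) + 1)))
  rw [add_zero] at h1
  convert h1 using 1
  push_cast
  ring

theorem ge_PD {P : Place ℂ K} {c : ℤ} {N : ℕ} (t : Fin N → Fin l)
    (v : ∀ s, Fin (R (t s)) → K) (e : Fin N → ℤ) (hv : ∀ s i, Ge P (e s) (v s i))
    (f : MvPolynomial (Vr R) K) (hf : ∀ α, Ge P c (coeff α f))
    (α : Vr R →₀ ℕ) : Ge P (c + ∑ s, e s) (coeff α (PD t v f)) := by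
  induction N generalizing α with
  | zero =>
    rw [PD_zero, Finset.univ_eq_empty, Finset.sum_empty, add_zero]
    exact hf α
  | succ N ih =>
    rw [PD_succ, Fin.sum_univ_succ]
    have h1 := ge_DD (t 0) (v 0) (hv 0) _ (fun β => ih (fun s => t s.succ) (fun s => v s.succ)
      (fun s => e s.succ) (fun s i => hv s.succ i) β) α
    refine h1.mono (le_of_eq ?_)
    ring

theorem PD_ne {N : ℕ} (x : Fin N → Vr R) (f : MvPolynomial (Vr R) K) (β : Vr R →₀ ℕ)
    (h : coeff (β + ∑ s, Finsupp.single (x s) 1) f ≠ 0) :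
    coeff β (PD (fun s => (x s).1) (fun s => Pi.single (x s).2 1) f) ≠ 0 := by
  classical
  induction N generalizing β with
  | zero =>
    rw [PD_zero]
    rwa [Finset.univ_eq_empty, Finset.sum_empty, add_zero] at h
  | succ N ih =>
    rw [PD_succ, DD_apply, Finset.sum_eq_single (x 0).2]
    · rw [Pi.single_eq_same, one_smul, coeff_pderiv]
      refine mul_ne_zero (ih (fun s => x s.succ) _ ?_) ?_
      · rwa [Fin.sum_univ_succ, ← add_assoc] at h
      · have : CharZero K := charZero_of_injective_algebraMap (algebraMap ℂ K).injective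
        exact Nat.cast_add_one_ne_zero _
    · intro i _ hi
      rw [Pi.single_eq_of_ne hi, zero_smul]
    · intro h1
      exact absurd (Finset.mem_univ _) h1

end

theorem exists_word {V : Type} (α : V →₀ ℕ) :
    ∃ (n : ℕ) (x : Fin n → V), ∑ s, Finsupp.single (x s) 1 = α := by
  induction α using Finsupp.induction_linear with
  | zero => exact ⟨0, Fin.elim0, by rw [Finset.univ_eq_empty, Finset.sum_empty]⟩
  | add f g hf hg =>
    obtain ⟨n, x, hx⟩ := hf
    obtain ⟨m, y, hy⟩ := hg
    refine ⟨n + m, Fin.append x y, ?_⟩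
    rw [Fin.sum_univ_add]
    simp only [Fin.append_left, Fin.append_right, hx, hy]
  | single a b =>
    refine ⟨b, fun _ => a, ?_⟩
    rw [Finset.sum_const, Finset.card_univ, Fintype.card_fin, Finsupp.smul_single, smul_eq_mul,
      mul_one]

theorem cons_det {F : Type} [CommRing F] {R' : ℕ} (w : Fin R' → Fin (R' + 1) → F)
    (m : Fin (R' + 1) → F) :
    (Matrix.of (Fin.cons m w : Fin (R' + 1) → Fin (R' + 1) → F)).det =
      ∑ i, m i * (Matrix.of (Fin.cons (Pi.single i 1) w :
        Fin (R' + 1) → Fin (R' + 1) → F)).det := by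
  classical
  obtain ⟨D, hD⟩ : ∃ D : MultilinearMap F (fun _ : Fin (R' + 1) => Fin (R' + 1) → F) F,
      ∀ v, D v = (Matrix.of v).det :=
    ⟨(Matrix.detRowAlternating (n := Fin (R' + 1)) (R := F)).toMultilinearMap, fun v => rfl⟩
  have h1 : ∀ m, (Matrix.of (Fin.cons m w : Fin (R' + 1) → Fin (R' + 1) → F)).det =
      D.curryLeft m w := fun m => (hD _).symm
  rw [h1]
  conv_lhs => rw [pi_eq_sum_univ' m, map_sum]
  rw [sum_apply]
  refine Finset.sum_congr rfl fun i _ => ?_
  rw [map_smul, smul_apply, smul_eq_mul, h1]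

theorem ddeg_sum' {K : Type} [Field K] [Algebra ℂ K] [IsFF ℂ K] {ι : Type} [Fintype ι]
    (F : ι → Place ℂ K →₀ ℤ) : ddeg (∑ s, F s) = ∑ s, ddeg (F s) := by
  classical
  have h : ∀ A : Finset ι, ddeg (∑ s ∈ A, F s) = ∑ s ∈ A, ddeg (F s) := by
    intro A
    induction A using Finset.induction_on with
    | empty =>
      rw [Finset.sum_empty, Finset.sum_empty]
      exact ddeg_zero
    | insert a A ha ih => rw [Finset.sum_insert ha, Finset.sum_insert ha, ddeg_add, ih]
  exact h _

theorem det_unit_ne {F : Type} [Field F] {R' : ℕ} (k : Fin (R' + 1)) :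
    (Matrix.of (Fin.cons (Pi.single k 1) (fun i => Pi.single (k.succAbove i) 1) :
      Fin (R' + 1) → Fin (R' + 1) → F)).det ≠ 0 := by
  classical
  obtain ⟨σ, hσ⟩ : ∃ σ : Fin (R' + 1) → Fin (R' + 1), σ = Fin.cons k k.succAbove := ⟨_, rfl⟩
  have hinj : Function.Injective σ := by
    rw [hσ, Fin.cons_injective_iff]
    refine ⟨?_, Fin.succAbove_right_injective⟩
    rintro ⟨i, hi⟩
    exact Fin.succAbove_ne k i hi
  obtain ⟨A, hA⟩ : ∃ A : Matrix (Fin (R' + 1)) (Fin (R' + 1)) F,
      A = Matrix.of fun i => Pi.single (σ i) 1 := ⟨_, rfl⟩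
  have h1 : Matrix.of (Fin.cons (Pi.single k 1) (fun i => Pi.single (k.succAbove i) 1) :
      Fin (R' + 1) → Fin (R' + 1) → F) = A := by
    rw [hA]
    congr 1
    funext i
    refine Fin.cases ?_ (fun i => ?_) i
    · rw [Fin.cons_zero, hσ, Fin.cons_zero]
    · rw [Fin.cons_succ, hσ, Fin.cons_succ]
  rw [h1]
  have h2 : A * A.transpose = 1 := by
    ext i j
    rw [Matrix.mul_apply, hA]
    simp only [Matrix.of_apply, Matrix.transpose_apply, Pi.single_apply, ite_mul, one_mul, zero_mul,
      Finset.sum_ite_eq', Finset.mem_univ, if_true, Matrix.one_apply]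
    simp [hinj.eq_iff]
  have h3 := congrArg Matrix.det h2
  rw [Matrix.det_mul, Matrix.det_one] at h3
  exact left_ne_zero_of_mul_eq_one h3

/-- **Package SEC.** -/
theorem sec (hW : S_WRD) : S_SEC := by
  classical
  intro K _ _ _ l r R E μ hr hR hE Λ Y d hY hd hμ S hS a N f hf hf0 hfc
  obtain ⟨R', rfl⟩ : ∃ R' : Fin l → ℕ, R = fun j => R' j + 1 :=
    ⟨fun j => R j - 1, funext fun j => (Nat.succ_pred_eq_of_pos (hR j)).symm⟩
  obtain ⟨α, hα⟩ := MvPolynomial.ne_zero_iff.1 hf0
  obtain ⟨n, x, hx⟩ := exists_word α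
  obtain ⟨φ, hφ⟩ : ∃ φ : ∀ j, MultilinearMap K (fun _ : Fin (R' j) => Fin (r j) → K)
      (Fin (R' j + 1) → K), ∀ j w i0, φ j w i0 = (Matrix.of (Fin.cons (Pi.single i0 1)
        (fun i => Matrix.vecMul (w i) (Λ j)) : Fin (R' j + 1) → Fin (R' j + 1) → K)).det := by
    refine ⟨fun j => MultilinearMap.pi fun i0 =>
      (((Matrix.detRowAlternating (n := Fin (R' j + 1)) (R := K)).toMultilinearMap :
        MultilinearMap K (fun _ : Fin (R' j + 1) => Fin (R' j + 1) → K) K).curryLeft
          (Pi.single i0 1)).compLinearMap (fun _ => Matrix.vecMulLinear (Λ j)), ?_⟩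
    intro j w i0
    rfl
  obtain ⟨Tf, hTf⟩ : ∃ Tf : MultilinearMap K (fun s : Fin n => Fin (R' (x s).1 + 1) → K) K,
      ∀ v, Tf v = coeff 0 (PD (R := fun j => R' j + 1) (fun s => (x s).1) v f) := by
    refine ⟨((lcoeff K (0 : Vr (fun j => R' j + 1) →₀ ℕ)).comp
      (LinearMap.applyₗ (R := K) f)).compMultilinearMap
        ((MultilinearMap.mkPiAlgebraFin K n (Module.End K
          (MvPolynomial (Vr (fun j => R' j + 1)) K))).compLinearMap
            (fun s => DD (R := fun j => R' j + 1) (x s).1)), ?_⟩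
    intro v
    rfl
  obtain ⟨Fm, hFm⟩ : ∃ Fm : MultilinearMap K (fun k : (Σ s : Fin n, Fin (R' (x s).1)) =>
      Fin (r (x k.1).1) → K) K, ∀ v, Fm v = Tf (fun s => φ (x s).1 (fun i => v ⟨s, i⟩)) :=
    ⟨Tf.compMultilinearMap (fun s => φ (x s).1), fun v => rfl⟩
  have h1 := slopeM hW E μ hr hE (fun k : (Σ s : Fin n, Fin (R' (x s).1)) => (x k.1).1) Fm ?_
    (N + ∑ s, d (x s).1) ?_
  · rw [Fintype.sum_sigma, ddeg_add, ddeg_sum'] at h1
    simp only [Finset.sum_const, Finset.card_univ, Fintype.card_fin, nsmul_eq_mul] at h1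
    push_cast at h1
    have h2 : ∀ s : Fin n, (ddeg (d (x s).1) : ℝ) = R' (x s).1 * μ (x s).1 + μ (x s).1 := by
      intro s
      rw [hμ]
      push_cast
      ring
    simp only [h2, Finset.sum_add_distrib] at h1
    have h3 : ∑ s, μ (x s).1 = ∑ j, a j * μ j := by
      have h4 : ∀ j, (a j : ℝ) = ∑ i, (α ⟨j, i⟩ : ℝ) := by
        intro j
        have := hf α hα j
        rw [← this]
        push_cast
        rfl
      have h5 : ∀ y : Vr (fun j => R' j + 1), (α y : ℝ) = ∑ s, if x s = y then 1 else 0 := by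
        intro y
        rw [← hx, Finsupp.finsetSum_apply]
        push_cast
        refine Finset.sum_congr rfl fun s _ => ?_
        rw [Finsupp.single_apply]
        split_ifs <;> simp
      simp only [h4, Finset.sum_mul]
      rw [← Fintype.sum_sigma' (f := fun j i => (α ⟨j, i⟩ : ℝ) * μ j)]
      simp only [h5, Finset.sum_mul]
      rw [Finset.sum_comm]
      refine Finset.sum_congr rfl fun s _ => ?_
      simp only [ite_mul, one_mul, zero_mul]
      rw [Finset.sum_ite_eq]
      simp
    linarith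
  · intro h0
    have h2 : ∀ s : Fin n, ∃ c : K, c ≠ 0 ∧ φ (x s).1
        (fun i => Y (x s).1 ((x s).2.succAbove i)) = c • Pi.single (x s).2 1 := by
      intro s
      obtain ⟨j, k⟩ := x s
      have h3 : ∀ k', Matrix.vecMul (Y j k') (Λ j) = Pi.single k' 1 := by
        intro k'
        have h4 : Matrix.vecMul (Y j k') (Λ j) = (Y j * Λ j) k' := rfl
        rw [h4, hY j]
        funext i
        rw [Matrix.one_apply, Pi.single_apply]
        exact if_congr eq_comm rfl rfl
      refine ⟨_, det_unit_ne (F := K) k, ?_⟩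
      funext i0
      rw [hφ, Pi.smul_apply, smul_eq_mul]
      simp only [h3]
      by_cases h4 : i0 = k
      · rw [h4, Pi.single_eq_same, mul_one]
      · rw [Pi.single_eq_of_ne h4, mul_zero]
        obtain ⟨i, hi⟩ := Fin.exists_succAbove_eq h4
        refine Matrix.det_zero_of_row_eq (i := 0) (j := i.succ) (Fin.succ_ne_zero i).symm ?_
        change (Fin.cons (Pi.single i0 1) (fun i => Pi.single (k.succAbove i) 1) :
          Fin (R' j + 1) → Fin (R' j + 1) → K) 0 = (Fin.cons (Pi.single i0 1)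
            (fun i => Pi.single (k.succAbove i) 1) : Fin (R' j + 1) → Fin (R' j + 1) → K) i.succ
        rw [Fin.cons_zero, Fin.cons_succ, hi]
    choose c hc0 hc using h2
    have h3 := congrArg (fun T => T (fun k => Y (x k.1).1 ((x k.1).2.succAbove k.2))) h0
    beta_reduce at h3
    rw [hFm] at h3
    simp only [hc] at h3
    rw [Tf.map_smul_univ, zero_apply, smul_eq_zero] at h3
    rcases h3 with h3 | h3
    · exact (Finset.prod_ne_zero_iff.2 fun s _ => hc0 s) h3
    · rw [hTf] at h3
      exact PD_ne x f 0 (by rwa [zero_add, hx]) h3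
  · intro P J
    rw [hFm, hTf]
    obtain ⟨M, hM⟩ : ∃ M : ∀ j, Matrix (Fin (R' j + 1)) (Fin (R' j + 1)) K,
        ∀ j, M j = ((E j).B P * Λ j).submatrix (S P j) id := ⟨_, fun _ => rfl⟩
    have h2 : f = psM (R := fun j => R' j + 1) M (psM (fun j => (M j)⁻¹) f) := by
      rw [psM_psM]
      have h3 : (fun j => (M j)⁻¹ * M j) =
          fun j => (1 : Matrix (Fin (R' j + 1)) (Fin (R' j + 1)) K) := by
        funext j
        rw [Matrix.nonsing_inv_mul]
        rw [hM, isUnit_iff_ne_zero]
        exact (hS P j).1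
      rw [h3]
      exact (psM_one (R := fun j => R' j + 1) f).symm
    rw [h2, PD_psM, coeff0_psM]
    have h3 := ge_PD (P := P) (c := -N P) (R := fun j => R' j + 1) (fun s => (x s).1)
      (fun s => (M (x s).1).mulVec (φ (x s).1 (fun i => (E (x s).1).B P (J ⟨s, i⟩))))
      (fun s => -d (x s).1 P) (fun s i => ?_) (psM (fun j => (M j)⁻¹) f) (fun β => ?_) 0
    · refine h3.mono (le_of_eq ?_)
      rw [Finsupp.add_apply, Finsupp.finsetSum_apply, Finset.sum_neg_distrib]
      ring
    · have h4 : (M (x s).1).mulVec (φ (x s).1 (fun i => (E (x s).1).B P (J ⟨s, i⟩))) i =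
          (((E (x s).1).B P * Λ (x s).1).submatrix (Fin.cons (S P (x s).1 i)
            (fun i => J ⟨s, i⟩)) id).det := by
        rw [Matrix.mulVec, dotProduct]
        simp only [hφ]
        rw [← cons_det]
        congr 1
        ext i' j'
        rw [Matrix.of_apply, Matrix.submatrix_apply]
        revert j'
        refine Fin.cases ?_ (fun i' => ?_) i'
        · intro j'
          rw [Fin.cons_zero, Fin.cons_zero, hM]
          rfl
        · intro j'
          rw [Fin.cons_succ, Fin.cons_succ]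
          rfl
      rw [h4]
      exact (hd _ P).1 _
    · have h4 := hfc P β
      simp only [← hM] at h4
      exact h4

end Pool.Agent.Helper81.PP
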