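import Pool.Agent.Helper9.PP.Basic
import Pool.Agent.Helper9.FJ.Key

/-!
Project PP (helper9): the slope inequality for multilinear forms on several bundles (from WRD).
-/

set_option autoImplicit false
set_option linter.unusedSectionVars false

namespace Pool.Agent.Helper81.PP

open FF Module MvPolynomial Pool.Agent.Helper9.FJ Pool.Agent.Helper9.PP

/-- **The slope inequality** for multilinear forms on several bundles. -/
theorem slopeM (hW : S_WRD) {K : Type} [Field K] [Algebra ℂ K] [IsFF ℂ K] {l : ℕ} {r : Fin l → ℕ}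
    (E : ∀ j, Bundle K (r j)) (μ : Fin l → ℝ) (hr : ∀ j, 0 < r j)
    (hE : ∀ j, SL (toBn (E j)) (μ j)) {σ : Type} [Fintype σ] (t : σ → Fin l)
    (T : MultilinearMap K (fun k : σ => Fin (r (t k)) → K) K) (hT : T ≠ 0) (c : Place ℂ K →₀ ℤ)
    (hc : ∀ P, ∀ J : ∀ k, Fin (r (t k)), Ge P (-c P) (T (fun k => (E (t k)).B P (J k)))) :
    ∑ k, μ (t k) ≤ ddeg c := by
  classical
  let e := Fintype.equivFin σ
  obtain ⟨H, hH, hS⟩ := hW E μ hr hE (Fintype.card σ) (fun k => t (e.symm k))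
  let G : (∀ k : σ, Fin (r (t k))) ≃ ∀ b, Fin (r (t (e.symm b))) :=
    Equiv.piCongrLeft' (fun k : σ => Fin (r (t k))) e
  have hG : ∀ J b, G J b = J (e.symm b) := fun J b => rfl
  obtain ⟨Λ, hΛ⟩ : ∃ Λ : Matrix (∀ b, Fin (r (t (e.symm b)))) (Fin 1) K, ∀ I i,
      Λ I i = T (fun k => Pi.single (G.symm I k) 1) := ⟨fun I _ => _, fun _ _ => rfl⟩
  have hval : ∀ P J, (H.B P * Λ) (G J) 0 = T (fun k => (E (t k)).B P (J k)) := by
    intro P J
    have h1 : (fun k => (E (t k)).B P (J k)) =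
        fun k => ∑ i, (E (t k)).B P (J k) i • (Pi.single i 1 : Fin (r (t k)) → K) := by
      funext k
      exact pi_eq_sum_univ' _
    rw [h1, T.map_sum, Matrix.mul_apply, ← Equiv.sum_comp G]
    refine Finset.sum_congr rfl fun J' _ => ?_
    rw [T.map_smul_univ, hH, hΛ, Equiv.symm_apply_apply, smul_eq_mul]
    congr 1
    rw [← Equiv.prod_comp e.symm]
    rfl
  obtain ⟨I0, hI0⟩ : ∃ I0, Λ I0 0 ≠ 0 := by
    by_contra hcon
    push Not at hcon
    apply hT
    refine MultilinearMap.ext fun v => ?_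
    have h1 : v = fun k => ∑ i, v k i • (Pi.single i 1 : Fin (r (t k)) → K) := by
      funext k
      exact pi_eq_sum_univ' _
    rw [h1, T.map_sum]
    refine Finset.sum_eq_zero fun J' _ => ?_
    rw [T.map_smul_univ]
    have h2 := hcon (G J')
    rw [hΛ, Equiv.symm_apply_apply] at h2
    rw [h2, smul_zero]
  obtain ⟨Y, hY⟩ : ∃ Y : Matrix (Fin 1) (∀ b, Fin (r (t (e.symm b)))) K, Y * Λ = 1 := by
    refine ⟨Matrix.of fun _ I => if I = I0 then (Λ I0 0)⁻¹ else 0, ?_⟩
    ext i j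
    obtain rfl : i = 0 := Subsingleton.elim _ _
    obtain rfl : j = 0 := Subsingleton.elim _ _
    rw [Matrix.mul_apply, Matrix.one_apply_eq]
    simp only [Matrix.of_apply, ite_mul, zero_mul, Finset.sum_ite_eq', Finset.mem_univ, if_true]
    exact inv_mul_cancel₀ hI0
  obtain ⟨d, hd⟩ := exists_qt H hY
  have h1 := hS 1 Λ d one_pos hd
  have h2 : d ≤ c := by
    intro P
    obtain ⟨S, hS0, hSd⟩ := (hd P).2
    rw [Matrix.det_unique] at hS0 hSd
    change (H.B P * Λ) (S 0) 0 ≠ 0 at hS0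
    change P.ord ((H.B P * Λ) (S 0) 0) = _ at hSd
    obtain ⟨J, hJ⟩ : ∃ J, G J = S 0 := ⟨G.symm (S 0), Equiv.apply_symm_apply _ _⟩
    rw [← hJ] at hS0 hSd
    have h3 := hc P J
    rw [← hval, ge_iff hS0, hSd] at h3
    linarith
  have h3 := ddeg_mono h2
  have h4 : (ddeg d : ℝ) ≤ ddeg c := by exact_mod_cast h3
  have h5 : ∑ k, μ (t (e.symm k)) = ∑ k, μ (t k) := Equiv.sum_comp e.symm (fun k => μ (t k))
  rw [h5] at h1
  push_cast at h1
  linarith

end Pool.Agent.Helper81.PP
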